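import Mathlib
import Pool.Agent.Lib.MP_5bf547_cnt.Main

namespace Pool.Agent.Results.MP_5bf547_co.SharpCount

/-- For all `h` and `n`, at most `2 ^ (3000 n (h + ⌊log₂ n⌋ + 1))` labelled graphs on `n` vertices
have an obstacle representation with at most `h` compact connected obstacles. -/
theorem result (h n : ℕ) :
    Set.ncard {G : SimpleGraph (Fin n) |
        ∃ k : ℕ, k ≤ h ∧
        ∃ p : Fin n → EuclideanSpace ℝ (Fin 2), Function.Injective p ∧
        ∃ O : Fin k → Set (EuclideanSpace ℝ (Fin 2)),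
          (∀ m : Fin k, IsCompact (O m) ∧ IsConnected (O m)) ∧
          ∀ i j : Fin n, i ≠ j →
            (G.Adj i j ↔ ∀ m : Fin k, Disjoint (segment ℝ (p i) (p j)) (O m))}
      ≤ 2 ^ (3000 * n * (h + Nat.log 2 n + 1)) := by
  refine le_trans (Set.ncard_le_ncard ?_ (Set.toFinite _)) (Pool.Agent.Lib.MP_5bf547_cnt.main h n)
  rintro G ⟨k, hk, p, _, O, b⟩
  exact ⟨k, hk, p, O, b⟩

end Pool.Agent.Results.MP_5bf547_co.SharpCount
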